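import Mathlib
import Pool.Agent.H990R2.CTFam
import Pool.Agent.H990R2.CTSpec
import Pool.Agent.Y307.Prof.Cont

open Finset Filter Topology
open Pool.Agent

namespace Pool.Agent.Results.MP_c130e3_pr.SeparationNoEquivalence

noncomputable section

/-- `Q` is the generator of an irreducible continuous-time Markov chain on the finite set `V`,
reversible with respect to the probability measure `p` (which is then its stationary
distribution). -/
structure IsReversibleChain {V : Type} [Fintype V] (Q : Matrix V V ℝ) (p : V → ℝ) : Prop where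
  offdiag : ∀ x y, x ≠ y → 0 ≤ Q x y
  row : ∀ x, ∑ y, Q x y = 0
  irreducible : ∀ x y, Relation.ReflTransGen (fun a b => a ≠ b ∧ 0 < Q a b) x y
  pos : ∀ x, 0 < p x
  total : ∑ x, p x = 1
  reversible : ∀ x y, p x * Q x y = p y * Q y x

/-- The heat kernel `H_t = exp (t Q)`. -/
def heat {V : Type} [Fintype V] [DecidableEq V] (Q : Matrix V V ℝ) (t : ℝ) : Matrix V V ℝ :=
  NormedSpace.exp (t • Q)

/-- Worst-case separation distance `max_x max_y (1 - H_t(x,y)/p(y))`. -/
def dSep {V : Type} [Fintype V] [DecidableEq V] (Q : Matrix V V ℝ) (p : V → ℝ) (t : ℝ) : ℝ :=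
  ⨆ x : V, ⨆ y : V, (1 - heat Q t x y / p y)

/-- Mixing time for the separation distance. -/
def tmix {V : Type} [Fintype V] [DecidableEq V] (Q : Matrix V V ℝ) (p : V → ℝ) (ε : ℝ) : ℝ :=
  sInf {t : ℝ | 0 ≤ t ∧ dSep Q p t ≤ ε}

/-- The spectral gap: the smallest nonzero eigenvalue of `-Q` (whose eigenvalues are real and
nonnegative for a reversible chain). -/
def gap {V : Type} [Fintype V] [DecidableEq V] (Q : Matrix V V ℝ) : ℝ :=
  sInf (spectrum ℝ (-Q) \ {0})

/-- The level `M = limsup_n d_n(0)`. -/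
def levelM (d : ℕ → ℝ → ℝ) : ℝ := limsup (fun n => d n 0) atTop

/-- Condition (1): `λ_n t_n → ∞`. -/
def Cond1 (lam t : ℕ → ℝ) : Prop := Tendsto (fun n => lam n * t n) atTop atTop

/-- Condition (2): cutoff at time `t n`. -/
def Cond2 (d : ℕ → ℝ → ℝ) (t : ℕ → ℝ) : Prop :=
  ∀ δ : ℝ, 0 < δ → δ < 1 →
    Tendsto (fun n => d n ((1 + δ) * t n)) atTop (𝓝 0) ∧
    Tendsto (fun n => d n ((1 - δ) * t n)) atTop (𝓝 (levelM d))

/-- `(t n, b n)` cutoff. -/
def WindowCutoff (d : ℕ → ℝ → ℝ) (t b : ℕ → ℝ) : Prop :=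
  Tendsto (fun n => b n / t n) atTop (𝓝 0) ∧
  Tendsto (fun c : ℝ => limsup (fun n => d n (t n + c * b n)) atTop) atTop (𝓝 0) ∧
  Tendsto (fun c : ℝ => liminf (fun n => d n (t n + c * b n)) atTop) atBot (𝓝 (levelM d))

/-- Condition (3): `(t n, (lam n)⁻¹)` cutoff. -/
def Cond3 (d : ℕ → ℝ → ℝ) (lam t : ℕ → ℝ) : Prop := WindowCutoff d t (fun n => (lam n)⁻¹)

section

variable {G : Type} [AddCommGroup G] [Fintype G] [DecidableEq G] {S : Finset G} {T : ℕ}

/-- the uniform law -/
def un (G : Type) [Fintype G] : G → ℝ := fun _ => 1 / (Fintype.card G : ℝ)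

theorem isChain (h : Helper394.Bad S T) :
    IsReversibleChain (H990R2.CT.srw S h.zero h.neg - 1) (un G) := by
  have hP : ∀ f : G → ℝ, (H990R2.CT.srw S h.zero h.neg).mulVec f = Helper394.U S f :=
    H990R2.CT.srw_mulVec S _ _
  have hc : (0 : ℝ) < S.card := by exact_mod_cast h.nonempty.card_pos
  have hG : (0 : ℝ) < Fintype.card G := by exact_mod_cast Fintype.card_pos
  refine ⟨?_, ?_, ?_, ?_, ?_, ?_⟩
  · intro x y hxy
    rw [Matrix.sub_apply, Matrix.one_apply_ne hxy, sub_zero, H990R2.CT.P_entry hP]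
    split_ifs <;> positivity
  · intro x
    simp only [Matrix.sub_apply, Finset.sum_sub_distrib, H990R2.CT.P_row h hP, Matrix.one_apply,
      Finset.sum_ite_eq, Finset.mem_univ, if_true, sub_self]
  · intro x y
    have h1 := (Helper394.cay_connected h).preconnected x y
    rw [SimpleGraph.reachable_iff_reflTransGen] at h1
    refine Relation.ReflTransGen.mono (fun a b hab => ?_) _ _ h1
    have hne : a ≠ b := hab.ne
    refine ⟨hne, ?_⟩
    rw [Matrix.sub_apply, Matrix.one_apply_ne hne, sub_zero, H990R2.CT.P_entry hP]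
    rw [Helper394.cay_adj] at hab
    rw [if_pos hab]
    positivity
  · intro x; simp only [un]; positivity
  · simp only [un, Finset.sum_const, Finset.card_univ, nsmul_eq_mul]
    field_simp
  · intro x y
    simp only [un, Matrix.sub_apply]
    rw [H990R2.CT.P_symm h hP x y]
    simp [Matrix.one_apply, eq_comm]

theorem gap_ge (h : Helper394.Bad S T) : 1 / 4 ≤ gap (H990R2.CT.srw S h.zero h.neg - 1) := by
  have hP : ∀ f : G → ℝ, (H990R2.CT.srw S h.zero h.neg).mulVec f = Helper394.U S f :=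
    H990R2.CT.srw_mulVec S _ _
  obtain ⟨r, hr, hr0⟩ := H990R2.CT.specR_nonempty h hP
  apply le_csInf
  · exact ⟨r, hr, hr0⟩
  · rintro b ⟨hb, hb0⟩
    exact H990R2.CT.specR h hP b hb hb0

theorem le_dSep (Q : Matrix G G ℝ) (p : G → ℝ) (t : ℝ) (x y : G) :
    1 - heat Q t x y / p y ≤ dSep Q p t := by
  refine le_trans ?_ (le_ciSup (f := fun x => ⨆ y, (1 - heat Q t x y / p y))
    (Set.finite_range _).bddAbove x)
  exact le_ciSup (f := fun y => (1 - heat Q t x y / p y)) (Set.finite_range _).bddAbove y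

theorem dSep_zero (h : Helper394.Bad S T) (h2 : 1 < Fintype.card G) :
    dSep (H990R2.CT.srw S h.zero h.neg - 1) (un G) 0 = 1 := by
  have e : heat (H990R2.CT.srw S h.zero h.neg - 1) 0 = 1 := by
    rw [heat, zero_smul, NormedSpace.exp_zero]
  have hG : (0 : ℝ) < Fintype.card G := by exact_mod_cast Fintype.card_pos
  apply le_antisymm
  · refine ciSup_le fun x => ciSup_le fun y => ?_
    rw [e]
    have : 0 ≤ (1 : Matrix G G ℝ) x y / un G y := by
      apply div_nonneg
      · rw [Matrix.one_apply]; split_ifs <;> norm_num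
      · simp only [un]; positivity
    linarith
  · obtain ⟨x, y, hxy⟩ := Fintype.exists_pair_of_one_lt_card h2
    have h3 := le_dSep (H990R2.CT.srw S h.zero h.neg - 1) (un G) 0 x y
    rw [e, Matrix.one_apply_ne hxy, zero_div, sub_zero] at h3
    exact h3

end

/-- There is a family of irreducible reversible continuous-time chains (symmetric generators
`Q_n` on `ℤ/N_n` with uniform stationary law, all nonzero jump rates of `Q_n` being equal) for
which, with the separation distance,
`M = 1` and for every `ε ∈ (0,1)` condition (1) holds whereas (2) and (3) fail. More precisely the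
separation distance satisfies `s_n(s τ_n) → e^{-s}` for suitable times `τ_n → ∞`, all `s ≥ 0`. -/
theorem result :
    ∃ (N : ℕ → ℕ) (_ : ∀ n, NeZero (N n)) (Q : ∀ n, Matrix (ZMod (N n)) (ZMod (N n)) ℝ)
      (p : ∀ n, ZMod (N n) → ℝ),
      (∀ n, IsReversibleChain (Q n) (p n)) ∧
      (∀ n x y x' y', x ≠ y → x' ≠ y' → Q n x y ≠ 0 → Q n x' y' ≠ 0 → Q n x y = Q n x' y') ∧
      levelM (fun n => dSep (Q n) (p n)) = 1 ∧
      (∃ τ : ℕ → ℝ, Tendsto τ atTop atTop ∧ (∀ n, 1 / 4 ≤ gap (Q n)) ∧
        ∀ s : ℝ, 0 ≤ s →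
          Tendsto (fun n => dSep (Q n) (p n) (s * τ n)) atTop (𝓝 (Real.exp (-s)))) ∧
      ∀ ε : ℝ, 0 < ε → ε < 1 →
        Cond1 (fun n => gap (Q n)) (fun n => tmix (Q n) (p n) ε) ∧
        ¬ Cond2 (fun n => dSep (Q n) (p n)) (fun n => tmix (Q n) (p n) ε) ∧
        ¬ Cond3 (fun n => dSep (Q n) (p n)) (fun n => gap (Q n))
            (fun n => tmix (Q n) (p n) ε) := by
  obtain ⟨N, hN, S, w, hNn, hw1, hw2, hE⟩ := Y307.Prof.exists_seq
  have hB : ∀ n, Helper394.Bad (S n) (n + 64) := fun n =>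
    (hE n).bad (by omega) (by nlinarith) (by omega) (by push_cast; exact hw1 n)
      (by push_cast; exact hw2 n)
  let P : ∀ n, Matrix (ZMod (N n)) (ZMod (N n)) ℝ := fun n =>
    H990R2.CT.srw (S n) (hB n).zero (hB n).neg
  have hP : ∀ n, ∀ f : ZMod (N n) → ℝ, (P n).mulVec f = Helper394.U (S n) f :=
    fun n f => H990R2.CT.srw_mulVec (S n) _ _ f
  let Q : ∀ n, Matrix (ZMod (N n)) (ZMod (N n)) ℝ := fun n => P n - 1
  let p : ∀ n, ZMod (N n) → ℝ := fun n => un (ZMod (N n))
  have hcard : ∀ n, 1 < Fintype.card (ZMod (N n)) := by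
    intro n
    rw [ZMod.card]
    have := hNn n
    omega
  have hGpos : ∀ n, (0 : ℝ) < Fintype.card (ZMod (N n)) := by
    intro n; exact_mod_cast Fintype.card_pos
  have hheat : ∀ n t, heat (Q n) t = H990R2.CT.H (P n) t := fun n t => rfl
  -- separation is squeezed between exponentials
  have hsq : Y307.Prof.CSq (fun n r => dSep (Q n) (p n) r) (fun n => 1 / w n ^ 2)
      (fun n => 1 / (1 - w n)) (fun n => (1 / 2) ^ ((n + 64) ^ 2)) (fun n => n + 64) := by
    refine Y307.Prof.csq_of hw1 hw2 _ ?_ ?_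
    · intro n r hr
      have h1 := (hE n).ct_low (by omega) (Y307.Prof.w_pos hw2 n) (Y307.Prof.w_lt hw1 n) (hB n)
        (hP n) hr
      refine h1.trans ?_
      have h2 := Y307.Prof.tv_le_of_min (fun y => H990R2.CT.H (P n) r 0 y)
        (H990R2.CT.H_row (H990R2.CT.P_row (hB n) (hP n)) r 0)
        (1 - dSep (Q n) (p n) r) (fun y => by
          have h3 := le_dSep (Q n) (p n) r 0 y
          rw [hheat] at h3
          simp only [p, un] at h3
          rw [div_div_eq_mul_div, div_one] at h3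
          rw [div_le_iff₀ (hGpos n)]
          linarith)
      simpa using h2
    · intro n r hr
      have hG := hGpos n
      refine ciSup_le fun x => ciSup_le fun y => ?_
      have h1 := H990R2.CT.mix_ge (β := w n) (B := 1 / (w n) ^ 2)
        (c := (1 - 1 / ((n + 64 : ℕ) : ℝ)) / Fintype.card (ZMod (N n))) hr
        (H990R2.CT.H_mulVec_hasSum (P n) r (Pi.single y 1) x) (fun k => by
          rw [Helper394.mat_pow (hP n)]
          have h2 := (hE n).up (by omega) (Y307.Prof.w_pos hw2 n) (Y307.Prof.w_lt hw1 n) k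
            (Pi.single y 1) (fun z => by
            rw [Pi.single_apply]; split_ifs <;> norm_num) x
          rw [Finset.sum_pi_single' y (1 : ℝ) univ] at h2
          simp only [Finset.mem_univ, if_true] at h2
          calc _ = (1 - 1 / ((n + 64 : ℕ) : ℝ)) * (1 - w n ^ k * (1 / w n ^ 2)) *
                (1 / Fintype.card (ZMod (N n))) := by ring
            _ ≤ _ := h2)
      have h2 : (H990R2.CT.H (P n) r).mulVec (Pi.single y 1) x = H990R2.CT.H (P n) r x y := by simp
      rw [h2] at h1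
      have e1 : (w n - 1) * r = -(r / (1 / (1 - w n))) := by
        rw [div_div_eq_mul_div, div_one]
        ring
      rw [e1] at h1
      rw [hheat]
      simp only [p, un]
      rw [div_div_eq_mul_div, div_one]
      have h3 := mul_le_mul_of_nonneg_right h1 hG.le
      have e2 : (1 - 1 / ((n + 64 : ℕ) : ℝ)) / (Fintype.card (ZMod (N n)) : ℝ) *
          (1 - 1 / w n ^ 2 * Real.exp (-(r / (1 / (1 - w n))))) * Fintype.card (ZMod (N n)) =
          (1 - 1 / ((n + 64 : ℕ) : ℝ)) *
            (1 - Real.exp (-(r / (1 / (1 - w n)))) * (1 / w n ^ 2)) := by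
        field_simp
      rw [e2] at h3
      linarith
  have hgap : ∀ n, 1 / 4 ≤ gap (Q n) := fun n => gap_ge (hB n)
  have hM : levelM (fun n => dSep (Q n) (p n)) = 1 := by
    have : (fun n => dSep (Q n) (p n) 0) = fun _ => (1 : ℝ) := by
      ext n; exact dSep_zero (hB n) (hcard n)
    rw [levelM, this, limsup_const]
  have heq : ∀ n x y x' y', x ≠ y → x' ≠ y' → Q n x y ≠ 0 → Q n x' y' ≠ 0 →
      Q n x y = Q n x' y' := by
    intro n x y x' y' hxy hxy' h1 h2
    change (P n - 1) x y ≠ 0 at h1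
    change (P n - 1) x' y' ≠ 0 at h2
    change (P n - 1) x y = (P n - 1) x' y'
    rw [Matrix.sub_apply, Matrix.one_apply_ne hxy, sub_zero, H990R2.CT.P_entry (hP n)] at h1 ⊢
    rw [Matrix.sub_apply, Matrix.one_apply_ne hxy', sub_zero, H990R2.CT.P_entry (hP n)] at h2 ⊢
    split_ifs at h1 h2 ⊢ <;> first | rfl | exact absurd rfl h1 | exact absurd rfl h2
  refine ⟨N, hN, Q, p, fun n => isChain (hB n), heq, hM, ⟨fun n => 1 / (1 - w n), hsq.tlim, hgap,
    fun s hs => hsq.profile (fun n => mul_nonneg hs (hsq.tpos n).le) (hsq.lin s)⟩, ?_⟩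
  intro ε h0 h1
  have hmix := hsq.mixing h0 h1
  have hL : 0 < Real.log (1 / ε) := by
    rw [one_div, Real.log_inv]; have := Real.log_neg h0 h1; linarith
  have ht0 : ∀ n, 0 ≤ tmix (Q n) (p n) ε := fun n => Real.sInf_nonneg fun t ht => ht.1
  have htinf : Tendsto (fun n => tmix (Q n) (p n) ε) atTop atTop := by
    refine (hmix.pos_mul_atTop hL hsq.tlim).congr fun n => ?_
    exact div_mul_cancel₀ _ (hsq.tpos n).ne'
  refine ⟨?_, ?_, ?_⟩
  · refine tendsto_atTop_mono (fun n => ?_) (htinf.const_mul_atTop (show (0 : ℝ) < 1 / 4 by norm_num))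
    exact mul_le_mul_of_nonneg_right (hgap n) (ht0 n)
  · intro hc
    have h2 := (hc (1 / 2) (by norm_num) (by norm_num)).1
    have h3 : Tendsto (fun n => ((1 + 1 / 2) * tmix (Q n) (p n) ε) / (1 / (1 - w n))) atTop
        (𝓝 ((1 + 1 / 2) * Real.log (1 / ε))) := by
      refine (hmix.const_mul (1 + 1 / 2)).congr fun n => ?_
      rw [mul_div_assoc]
      rfl
    have h4 := hsq.profile (r := fun n => (1 + 1 / 2) * tmix (Q n) (p n) ε)
      (fun n => mul_nonneg (by norm_num) (ht0 n)) h3
    have h5 := tendsto_nhds_unique h2 h4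
    exact (Real.exp_pos _).ne h5
  · intro hc
    have h2 := hc.2.1
    have h3 : ∀ c : ℝ, 0 ≤ c → limsup (fun n => dSep (Q n) (p n)
        (tmix (Q n) (p n) ε + c * (gap (Q n))⁻¹)) atTop = ε := by
      intro c hc0
      have hg : ∀ n, 0 ≤ c * (gap (Q n))⁻¹ ∧ c * (gap (Q n))⁻¹ ≤ c * 4 := by
        intro n
        have hgn := hgap n
        have h4 : (gap (Q n))⁻¹ ≤ 4 := by
          rw [inv_le_comm₀ (by linarith) (by norm_num)]
          linarith
        exact ⟨mul_nonneg hc0 (inv_nonneg.mpr (by linarith)), mul_le_mul_of_nonneg_left h4 hc0⟩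
      have h5 : Tendsto (fun n => (c * (gap (Q n))⁻¹) / (1 / (1 - w n))) atTop (𝓝 0) := by
        have h6 : Tendsto (fun n => (c * 4) / (1 / (1 - w n))) atTop (𝓝 0) :=
          tendsto_const_nhds.div_atTop hsq.tlim
        refine squeeze_zero (fun n => div_nonneg (hg n).1 (hsq.tpos n).le) (fun n => ?_) h6
        exact div_le_div_of_nonneg_right (hg n).2 (hsq.tpos n).le
      have h6 : Tendsto (fun n => (tmix (Q n) (p n) ε + c * (gap (Q n))⁻¹) / (1 / (1 - w n)))
          atTop (𝓝 (Real.log (1 / ε))) := by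
        have h7 := hmix.add h5
        rw [add_zero] at h7
        refine h7.congr fun n => ?_
        rw [add_div]
        rfl
      have h7 := hsq.profile (r := fun n => tmix (Q n) (p n) ε + c * (gap (Q n))⁻¹)
        (fun n => add_nonneg (ht0 n) (hg n).1) h6
      have e : Real.exp (-Real.log (1 / ε)) = ε := by
        rw [one_div, Real.log_inv, neg_neg, Real.exp_log h0]
      rw [e] at h7
      exact h7.limsup_eq
    have h8 : Tendsto (fun c : ℝ => limsup (fun n => dSep (Q n) (p n)
        (tmix (Q n) (p n) ε + c * (gap (Q n))⁻¹)) atTop) atTop (𝓝 ε) := by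
      refine tendsto_const_nhds.congr' ?_
      filter_upwards [eventually_ge_atTop (0 : ℝ)] with c hc0
      exact (h3 c hc0).symm
    have h9 := tendsto_nhds_unique h2 h8
    exact h0.ne h9

end

end Pool.Agent.Results.MP_c130e3_pr.SeparationNoEquivalence
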